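import Pool.Agent.Helper43.AX.St

set_option autoImplicit false

namespace Pool.Agent.Helper24.AX

open Pool.Agent.Helper43.AX
open Pool.Agent.Helper43.GD (Gn)

theorem hSG : StSG := by
  intro G _ m a t l L _ x E hla hlt hadd hinj hone htE hgn hxm
  have h0 : E 0 = 1 := by
    have h := hadd 0 0
    rw [add_zero] at h
    exact (mul_eq_left.1 h.symm)
  have hneg : ∀ c, E (-c) = (E c)⁻¹ := by
    intro c
    rw [eq_comm, inv_eq_iff_mul_eq_one, ← hadd, add_neg_cancel, h0]
  have htk : ∀ (k : ℕ) (d : L), (t ^ k)⁻¹ * E d * t ^ k = E ((x : L) ^ k * d) := by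
    intro k
    induction k with
    | zero => intro d; simp
    | succ k ih =>
      intro d
      have e1 : (t ^ (k + 1))⁻¹ * E d * t ^ (k + 1) = t⁻¹ * ((t ^ k)⁻¹ * E d * t ^ k) * t := by
        rw [pow_succ]
        group
      rw [e1, ih, htE, pow_succ']
      congr 1
      ring
  have hli : l⁻¹ * t⁻¹ * l = (t ^ m)⁻¹ := by
    rw [← hlt]
    group
  have hex : ∀ c : L, ∃ d : L, l⁻¹ * E c * l = E d := by
    obtain ⟨N, hN⟩ : ∃ N : AddSubgroup L, ∀ c, c ∈ N ↔ ∃ d : L, l⁻¹ * E c * l = E d :=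
      ⟨{ carrier := {c | ∃ d : L, l⁻¹ * E c * l = E d}
         zero_mem' := ⟨0, by rw [h0]; simp⟩
         add_mem' := by
          rintro c c' ⟨d, hd⟩ ⟨d', hd'⟩
          refine ⟨d + d', ?_⟩
          rw [hadd, hadd, ← hd, ← hd']
          group
         neg_mem' := by
          rintro c ⟨d, hd⟩
          refine ⟨-d, ?_⟩
          rw [hneg, hneg, ← hd]
          group }, fun c => Iff.rfl⟩
    intro c
    refine (hN c).1 (hgn N ((hN 1).2 ⟨1, ?_⟩) ?_ c)
    · rw [hone, mul_assoc, ← hla, inv_mul_cancel_left]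
    · intro y hy
      obtain ⟨d, hd⟩ := (hN y).1 hy
      refine (hN _).2 ⟨(x : L) ^ m * d, ?_⟩
      rw [← htk, ← hd, ← htE, ← hli, ← hlt]
      group
  choose s hs using hex
  have sadd : ∀ c d, s (c + d) = s c + s d := by
    intro c d
    apply hinj
    rw [← hs, hadd, hadd, ← hs, ← hs]
    group
  have s1 : s 1 = 1 := by
    apply hinj
    rw [← hs, hone, mul_assoc, ← hla, inv_mul_cancel_left]
  have sx : ∀ c, s ((x : L) * c) = ((x : L) + 1) * s c := by
    intro c
    apply hinj
    rw [← hs, ← hxm, ← htk, ← hs, ← htE, ← hli, ← hlt]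
    group
  have s0 : s 0 = 0 := by
    have h := sadd 0 0
    rw [add_zero] at h
    exact (add_eq_left.1 h.symm)
  have sneg : ∀ c, s (-c) = -s c := by
    intro c
    rw [eq_neg_iff_add_eq_zero, ← sadd, neg_add_cancel, s0]
  have smul : ∀ d c, s (c * d) = s c * s d := by
    intro d
    obtain ⟨N, hN⟩ : ∃ N : AddSubgroup L, ∀ c, c ∈ N ↔ s (c * d) = s c * s d :=
      ⟨{ carrier := {c | s (c * d) = s c * s d}
         zero_mem' := by
          show s (0 * d) = s 0 * s d
          rw [zero_mul, s0, zero_mul]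
         add_mem' := by
          intro c c' hc hc'
          show s ((c + c') * d) = s (c + c') * s d
          have e1 : s (c * d) = s c * s d := hc
          have e2 : s (c' * d) = s c' * s d := hc'
          rw [add_mul, sadd, sadd, e1, e2, add_mul]
         neg_mem' := by
          intro c hc
          show s (-c * d) = s (-c) * s d
          have e1 : s (c * d) = s c * s d := hc
          rw [neg_mul, sneg, sneg, e1, neg_mul] }, fun c => Iff.rfl⟩
    intro c
    refine (hN c).1 (hgn N ((hN 1).2 ?_) ?_ c)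
    · rw [one_mul, s1, one_mul]
    · intro y hy
      have e1 := (hN y).1 hy
      refine (hN _).2 ?_
      rw [mul_assoc, sx, e1, sx, mul_assoc]
  have sinj : Function.Injective s := by
    intro c c' h
    apply hinj
    have e1 := hs c
    have e2 := hs c'
    rw [← h, ← e1] at e2
    have e3 : E c' = l * (l⁻¹ * E c' * l) * l⁻¹ := by group
    have e4 : E c = l * (l⁻¹ * E c * l) * l⁻¹ := by group
    rw [e4, e3, e2]
  have ssurj : Function.Surjective s := by
    obtain ⟨N, hN⟩ : ∃ N : AddSubgroup L, ∀ d, d ∈ N ↔ ∃ c, s c = d :=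
      ⟨{ carrier := {d | ∃ c, s c = d}
         zero_mem' := ⟨0, s0⟩
         add_mem' := by
          rintro _ _ ⟨c, rfl⟩ ⟨c', rfl⟩
          exact ⟨c + c', sadd c c'⟩
         neg_mem' := by
          rintro _ ⟨c, rfl⟩
          exact ⟨-c, sneg c⟩ }, fun c => Iff.rfl⟩
    intro d
    refine (hN d).1 (hgn N ((hN 1).2 ⟨1, s1⟩) ?_ d)
    intro y hy
    obtain ⟨c, rfl⟩ := (hN y).1 hy
    refine (hN _).2 ⟨(x : L) * c + -c, ?_⟩
    rw [sadd, sneg, sx]
    ring
  refine ⟨RingEquiv.ofBijective
    ({ toFun := s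
       map_one' := s1
       map_mul' := fun c d => smul d c
       map_zero' := s0
       map_add' := sadd } : L →+* L) ⟨sinj, ssurj⟩, ?_⟩
  refine ⟨hadd, hinj, hone, htE, fun c => hs c, hgn, hxm, ?_⟩
  show s (x : L) = (x : L) + 1
  have h := sx 1
  rw [mul_one, s1, mul_one] at h
  exact h

end Pool.Agent.Helper24.AX
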